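import Pool.Agent.H95.ILV.Targets

/-!
# MP_de9001_an, invariant levels: the function with plateaus and gadgets
-/

set_option autoImplicit false

open MeasureTheory AddCircle Filter Topology

open Pool.Agent.H87.Synth Pool.Agent.H23.Synth Pool.Agent.H95.ILV

namespace Pool.Agent.H7.ILV

noncomputable section

private theorem abs_cast (n : ℤ) : |(n : ℝ)| = (n.natAbs : ℝ) := by
  rw [Nat.cast_natAbs, Int.cast_abs]

private theorem tz_one {a l : ℕ} {n : ℤ} (hl : 1 ≤ l) (h : n.natAbs ≤ a) : tz a l n = 1 := by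
  unfold tz
  rw [abs_cast]
  have h1 : (n.natAbs : ℝ) ≤ a := by exact_mod_cast h
  have hl' : (0 : ℝ) < l := by exact_mod_cast hl
  have h2 : 1 ≤ ((a : ℝ) + l - (n.natAbs : ℝ)) / l := by
    rw [one_le_div hl']
    linarith
  rw [min_eq_left h2, max_eq_right zero_le_one]

private theorem tz_zero {a l : ℕ} {n : ℤ} (hl : 1 ≤ l) (h : a + l ≤ n.natAbs) : tz a l n = 0 := by
  unfold tz
  rw [abs_cast]
  have h1 : (a : ℝ) + l ≤ n.natAbs := by exact_mod_cast h
  have hl' : (0 : ℝ) < l := by exact_mod_cast hl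
  have h2 : ((a : ℝ) + l - (n.natAbs : ℝ)) / l ≤ 0 :=
    div_nonpos_of_nonpos_of_nonneg (by linarith) hl'.le
  rw [min_eq_right (h2.trans zero_le_one), max_eq_left h2]

private theorem coeff_S (P : ℕ) (s : ℕ → ℤ) (m : ℤ) :
    coeff (∑ a ∈ Finset.range P, (s a : ℂ) • ex (a : ℤ) : L1) m =
      ∑ a ∈ Finset.range P, if (a : ℤ) = m then (s a : ℂ) else 0 := by
  rw [coeff_sum]
  apply Finset.sum_congr rfl
  intro a _
  rw [coeff_smul, coeff_ex]
  split_ifs <;> simp

private theorem coeff_S_zero {P : ℕ} {s : ℕ → ℤ} {m : ℤ} (h : ∀ a < P, (a : ℤ) ≠ m) :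
    coeff (∑ a ∈ Finset.range P, (s a : ℂ) • ex (a : ℤ) : L1) m = 0 := by
  rw [coeff_S]
  apply Finset.sum_eq_zero
  intro a ha
  rw [if_neg (h a (Finset.mem_range.1 ha))]

private theorem coeff_S_eq {P : ℕ} {s : ℕ → ℤ} {a : ℕ} (ha : a < P) :
    coeff (∑ a ∈ Finset.range P, (s a : ℂ) • ex (a : ℤ) : L1) a = (s a : ℂ) := by
  rw [coeff_S, Finset.sum_eq_single a]
  · rw [if_pos rfl]
  · intro b _ hb
    rw [if_neg]
    exact_mod_cast hb
  · intro h
    exact absurd (Finset.mem_range.2 ha) h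

private theorem tail {K : ℕ} {e : ℂ} {g : ℕ → ℂ}
    (h : ∀ j, K ≤ j → g j = (1 / 3) ^ j * e - (1 / 3) ^ (j + 1) * e) :
    HasSum g (∑ j ∈ Finset.range K, g j + (1 / 3) ^ K * e) := by
  have h1 : HasSum (fun j : ℕ => (1 / 3 : ℂ) ^ j) (1 - 1 / 3)⁻¹ := by
    apply hasSum_geometric_of_norm_lt_one
    rw [norm_div, norm_one]
    norm_num
  have h2 : HasSum (fun j : ℕ => g (j + K)) ((1 / 3) ^ K * e) := by
    have h3 := (h1.mul_left ((1 / 3 : ℂ) ^ K * e * (2 / 3)))
    have h4 : (1 / 3 : ℂ) ^ K * e * (2 / 3) * (1 - 1 / 3)⁻¹ = (1 / 3) ^ K * e := by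
      norm_num
      ring
    rw [h4] at h3
    have h5 : (fun j : ℕ => g (j + K)) = fun j : ℕ => (1 / 3 : ℂ) ^ K * e * (2 / 3) * (1 / 3) ^ j := by
      funext j
      rw [h (j + K) (by omega), pow_succ, pow_add]
      ring
    rw [h5]
    exact h3
  rw [add_comm]
  exact (hasSum_nat_add_iff K).1 h2

theorem pf_FEX (h1 : T_MOD) (h2 : T_ALT) (h3 : T_VPC) (h4 : T_VPN) : T_FEX := by
  intro b d P c s G hb hd hP hc hG hs1 hs2
  choose MO hMO1 hMO2 using h1
  choose AL hAL1 hAL2 using h2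
  let S : ℕ → L1 := fun k => ∑ a ∈ Finset.range (P k), (s k a : ℂ) • ex (a : ℤ)
  let F : ℕ → L1 := fun k => ((1 / 3 : ℂ) ^ k) • AL (VP (b k + d k) (d k)) -
    ((1 / 3 : ℂ) ^ (k + 1)) • AL (VP (b k + 3 * d k) (d k)) +
    ((1 / 3 : ℂ) ^ (k + 1)) • MO (S k) ((b k : ℤ) + 2 * d k)
  have hG0 : ∀ k, 0 ≤ G k := fun k => (norm_nonneg _).trans (hG k)
  have hn : ∀ j : ℕ, ‖(1 / 3 : ℂ) ^ j‖ = (1 / 3 : ℝ) ^ j := by
    intro j
    rw [norm_pow, norm_div, norm_one]
    norm_num
  have hFn : ∀ k, ‖F k‖ ≤ 6 * (1 / 3 : ℝ) ^ k + 2 * ((1 / 3 : ℝ) ^ k * c k) +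
      (1 / 3 : ℝ) ^ k * G k := by
    intro k
    have e1 : ‖((1 / 3 : ℂ) ^ k) • AL (VP (b k + d k) (d k))‖ ≤ (1 / 3 : ℝ) ^ k * (3 + c k) := by
      rw [norm_smul, hn]
      apply mul_le_mul_of_nonneg_left _ (by positivity)
      refine (hAL2 _).trans (h4 _ _ _ (hd k) ?_)
      have := hc k
      omega
    have e2 : ‖((1 / 3 : ℂ) ^ (k + 1)) • AL (VP (b k + 3 * d k) (d k))‖ ≤
        (1 / 3 : ℝ) ^ (k + 1) * (3 + c k) := by
      rw [norm_smul, hn]
      apply mul_le_mul_of_nonneg_left _ (by positivity)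
      exact (hAL2 _).trans (h4 _ _ _ (hd k) (hc k))
    have e3 : ‖((1 / 3 : ℂ) ^ (k + 1)) • MO (S k) ((b k : ℤ) + 2 * d k)‖ ≤
        (1 / 3 : ℝ) ^ (k + 1) * G k := by
      rw [norm_smul, hn]
      apply mul_le_mul_of_nonneg_left _ (by positivity)
      exact (hMO2 _ _).trans (hG k)
    have e4 : (1 / 3 : ℝ) ^ (k + 1) ≤ (1 / 3 : ℝ) ^ k :=
      pow_le_pow_of_le_one (by norm_num) (by norm_num) (Nat.le_succ k)
    have e5 : (1 / 3 : ℝ) ^ (k + 1) * (3 + c k) ≤ (1 / 3 : ℝ) ^ k * (3 + c k) :=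
      mul_le_mul_of_nonneg_right e4 (by positivity)
    have e6 : (1 / 3 : ℝ) ^ (k + 1) * G k ≤ (1 / 3 : ℝ) ^ k * G k :=
      mul_le_mul_of_nonneg_right e4 (hG0 k)
    have e7 := norm_add_le (((1 / 3 : ℂ) ^ k) • AL (VP (b k + d k) (d k)) -
      ((1 / 3 : ℂ) ^ (k + 1)) • AL (VP (b k + 3 * d k) (d k)))
      (((1 / 3 : ℂ) ^ (k + 1)) • MO (S k) ((b k : ℤ) + 2 * d k))
    have e8 := norm_sub_le (((1 / 3 : ℂ) ^ k) • AL (VP (b k + d k) (d k)))
      (((1 / 3 : ℂ) ^ (k + 1)) • AL (VP (b k + 3 * d k) (d k)))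
    have e9 : ‖F k‖ = ‖((1 / 3 : ℂ) ^ k) • AL (VP (b k + d k) (d k)) -
      ((1 / 3 : ℂ) ^ (k + 1)) • AL (VP (b k + 3 * d k) (d k)) +
      ((1 / 3 : ℂ) ^ (k + 1)) • MO (S k) ((b k : ℤ) + 2 * d k)‖ := rfl
    rw [e9]
    linarith
  have hFs : Summable F := by
    apply Summable.of_norm_bounded _ hFn
    apply Summable.add
    · apply Summable.add
      · exact (summable_geometric_of_lt_one (by norm_num) (by norm_num)).mul_left 6
      · exact hs1.mul_left 2
    · exact hs2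
  have hco : ∀ n : ℤ, HasSum (fun k => coeff (F k) n) (coeff (∑' k, F k) n) := by
    intro n
    exact (coeffL n).hasSum hFs.hasSum
  have hcF : ∀ (k : ℕ) (n : ℤ), coeff (F k) n =
      (1 / 3) ^ k * ((-1) ^ n * ((tz (b k + d k) (d k) n : ℝ) : ℂ)) -
      (1 / 3) ^ (k + 1) * ((-1) ^ n * ((tz (b k + 3 * d k) (d k) n : ℝ) : ℂ)) +
      (1 / 3) ^ (k + 1) * coeff (S k) (n - ((b k : ℤ) + 2 * d k)) := by
    intro k n
    have e1 : coeff (F k) n = coeff (((1 / 3 : ℂ) ^ k) • AL (VP (b k + d k) (d k)) -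
      ((1 / 3 : ℂ) ^ (k + 1)) • AL (VP (b k + 3 * d k) (d k)) +
      ((1 / 3 : ℂ) ^ (k + 1)) • MO (S k) ((b k : ℤ) + 2 * d k)) n := rfl
    rw [e1, coeff_add, coeff_sub, coeff_smul, coeff_smul, coeff_smul, hAL1, hAL1, hMO1,
      h3 _ _ _ (hd k), h3 _ _ _ (hd k)]
  have hmono : ∀ j k, j < k → b j + 5 * d j ≤ b k := by
    intro j k hjk
    induction k, hjk using Nat.le_induction with
    | base => exact hb j
    | succ k hk ih =>
      have := hb k
      omega
  -- both kernels are one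
  have hone : ∀ (j : ℕ) (n : ℤ), n.natAbs ≤ b j + d j →
      coeff (F j) n = (1 / 3) ^ j * (-1) ^ n - (1 / 3) ^ (j + 1) * (-1) ^ n := by
    intro j n hj
    have hdj := hd j
    have hz : coeff (S j) (n - ((b j : ℤ) + 2 * d j)) = 0 := by
      apply coeff_S_zero
      intro a ha h
      omega
    rw [hcF, tz_one (hd j) (by omega), tz_one (hd j) (by omega), hz]
    push_cast
    ring
  -- both kernels are zero
  have hzero : ∀ (j : ℕ) (n : ℤ), b j + 4 * d j ≤ n.natAbs → coeff (F j) n = 0 := by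
    intro j n hj
    have hdj := hd j
    have hPj := hP j
    have hz : coeff (S j) (n - ((b j : ℤ) + 2 * d j)) = 0 := by
      apply coeff_S_zero
      intro a ha h
      omega
    rw [hcF, tz_zero (hd j) (by omega), tz_zero (hd j) (by omega), hz]
    push_cast
    ring
  refine ⟨∑' k, F k, ?_, ?_⟩
  · intro k n hk1 hk2
    have e1 := tail (K := k) (e := (-1) ^ n) (g := fun j => coeff (F j) n) (by
      intro j hj
      apply hone
      rcases Nat.eq_or_lt_of_le hj with h | h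
      · rw [← h]
        exact hk2
      · have := hmono k j h
        omega)
    have e2 : ∑ j ∈ Finset.range k, coeff (F j) n = 0 := by
      apply Finset.sum_eq_zero
      intro j hj
      rw [Finset.mem_range] at hj
      apply hzero
      rcases hk1 with h | h
      · omega
      · rcases Nat.eq_or_lt_of_le (show j ≤ k - 1 by omega) with h5 | h5
        · rw [h5]
          exact h
        · have := hmono j (k - 1) h5
          omega
    rw [e2, zero_add] at e1
    exact (hco n).unique e1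
  · intro k a ha
    have hPk := hP k
    have hdk := hd k
    set n : ℤ := (b k : ℤ) + 2 * d k + a with hn
    have e1 := tail (K := k + 1) (e := (-1) ^ n) (g := fun j => coeff (F j) n) (by
      intro j hj
      apply hone
      have := hmono k j hj
      omega)
    have e2 : ∑ j ∈ Finset.range (k + 1), coeff (F j) n =
        -((1 / 3) ^ (k + 1) * (-1) ^ n) + (1 / 3) ^ (k + 1) * (s k a : ℂ) := by
      rw [Finset.sum_range_succ]
      have e3 : ∑ j ∈ Finset.range k, coeff (F j) n = 0 := by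
        apply Finset.sum_eq_zero
        intro j hj
        rw [Finset.mem_range] at hj
        apply hzero
        have := hmono j k hj
        omega
      have e4 : n - ((b k : ℤ) + 2 * d k) = a := by
        rw [hn]
        ring
      have e5 : coeff (S k) a = (s k a : ℂ) := coeff_S_eq ha
      rw [e3, zero_add, hcF, e4, e5, tz_zero (hd k) (by omega), tz_one (hd k) (by omega)]
      push_cast
      ring
    have e3 := (hco n).unique e1
    rw [e3, e2]
    ring

end

end Pool.Agent.H7.ILV
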