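import Pool.Agent.H95.ILV.Targets

/-!
# MP_de9001_an, invariant levels: summability for the explicit levels
-/

set_option autoImplicit false

open MeasureTheory AddCircle Filter Topology

open Pool.Agent.H87.Synth Pool.Agent.H23.Synth Pool.Agent.H95.ILV

namespace Pool.Agent.H7.ILV

theorem pf_KG (_h1 : T_KA) (h2 : T_KE) : T_KG := by
  unfold T_KG
  have hmm : ∀ i : ℕ, (mm i : ℝ) ≤ 2 ^ (i + 23) / ((i : ℝ) + 1) ^ 10 + 1 := by
    intro i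
    unfold mm
    push_cast
    have h := @Nat.cast_div_le ℝ _ _ _ (2 ^ (i + 23)) ((i + 1) ^ 10)
    push_cast at h
    linarith
  have hMM : ∀ i : ℕ, (MM i : ℝ) ≤ mm i * 2 ^ (i + 10) := by
    intro i
    have h3 : MM i ≤ mm i * 2 ^ (i + 10) := (Nat.sub_le _ _).trans (h2 i).2.1
    exact_mod_cast h3
  have hkey : ∀ i : ℕ, √(MM i) / Tt i ≤ 2 ^ 9 / ((i : ℝ) + 1) ^ 5 + (3 / 4) ^ i := by
    intro i
    have hT : (Tt i : ℝ) = 2 ^ (i + 8) := by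
      unfold Tt
      push_cast
      rfl
    have hT0 : (0 : ℝ) < 2 ^ (i + 8) := by positivity
    rw [hT, div_le_iff₀ hT0]
    apply Real.sqrt_le_iff.2
    refine ⟨by positivity, ?_⟩
    have h3 : (MM i : ℝ) ≤ (2 ^ (i + 23) / ((i : ℝ) + 1) ^ 10 + 1) * 2 ^ (i + 10) :=
      (hMM i).trans (mul_le_mul_of_nonneg_right (hmm i) (by positivity))
    refine h3.trans ?_
    have hi0 : (0 : ℝ) < ((i : ℝ) + 1) := by positivity
    have e1 : (2 : ℝ) ^ (i + 23) = 2 ^ 23 * 2 ^ i := by rw [pow_add]; ring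
    have e2 : (2 : ℝ) ^ (i + 10) = 2 ^ 10 * 2 ^ i := by rw [pow_add]; ring
    have e3 : (2 : ℝ) ^ (i + 8) = 2 ^ 8 * 2 ^ i := by rw [pow_add]; ring
    have e4 : ((3 / 4 : ℝ) ^ i) ^ 2 * (2 ^ i) ^ 2 = (9 / 4) ^ i := by
      rw [← mul_pow, ← mul_pow, ← pow_mul, mul_comm i 2, pow_mul]
      norm_num
    have e5 : (2 : ℝ) ^ i ≤ (9 / 4) ^ i := pow_le_pow_left₀ (by norm_num) (by norm_num) i
    have e6 : (0 : ℝ) ≤ 2 * (2 ^ 9 / ((i : ℝ) + 1) ^ 5) * (3 / 4) ^ i * (2 ^ 8 * 2 ^ i) ^ 2 := by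
      positivity
    have e7 : ((2 ^ 9 / ((i : ℝ) + 1) ^ 5 + (3 / 4) ^ i) * (2 ^ 8 * 2 ^ i)) ^ 2 =
        2 ^ 34 * (2 ^ i) ^ 2 / ((i : ℝ) + 1) ^ 10 + 2 ^ 16 * (((3 / 4 : ℝ) ^ i) ^ 2 * (2 ^ i) ^ 2) +
          2 * (2 ^ 9 / ((i : ℝ) + 1) ^ 5) * (3 / 4) ^ i * (2 ^ 8 * 2 ^ i) ^ 2 := by
      field_simp
      ring
    have e8 : (2 ^ 23 * 2 ^ i / ((i : ℝ) + 1) ^ 10 + 1) * (2 ^ 10 * 2 ^ i) =
        2 ^ 33 * (2 ^ i) ^ 2 / ((i : ℝ) + 1) ^ 10 + 2 ^ 10 * 2 ^ i := by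
      field_simp
    rw [e1, e2, e3, e7, e8, e4]
    have e9 : (0 : ℝ) ≤ 2 ^ 33 * (2 ^ i) ^ 2 / ((i : ℝ) + 1) ^ 10 := by positivity
    have e10 : 2 ^ 34 * (2 ^ i) ^ 2 / ((i : ℝ) + 1) ^ 10 =
      2 * (2 ^ 33 * (2 ^ i) ^ 2 / ((i : ℝ) + 1) ^ 10) := by ring
    rw [e10]
    have e11 : (0 : ℝ) < 2 ^ i := by positivity
    nlinarith
  have hs1 : Summable fun i : ℕ => (2 ^ 9 : ℝ) * (1 / ((i : ℝ) + 1) ^ 2) := by
    apply Summable.mul_left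
    have h3 : Summable fun i : ℕ => (1 : ℝ) / (i : ℝ) ^ 2 :=
      Real.summable_one_div_nat_pow.2 (by norm_num)
    have h4 := (summable_nat_add_iff 1).2 h3
    push_cast at h4
    exact h4
  have hs2 : Summable fun i : ℕ => (4 / 3 : ℝ) * (((i : ℝ) + 1) ^ 3 * (3 / 4) ^ (i + 1)) := by
    apply Summable.mul_left
    have h3 : Summable fun i : ℕ => (i : ℝ) ^ 3 * (3 / 4 : ℝ) ^ i :=
      summable_pow_mul_geometric_of_norm_lt_one 3 (by rw [Real.norm_eq_abs]; norm_num [abs_lt])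
    have h4 := (summable_nat_add_iff 1).2 h3
    push_cast at h4
    exact h4
  apply Summable.of_nonneg_of_le _ _ (hs1.add hs2)
  · intro i
    positivity
  · intro i
    have hi0 : (0 : ℝ) < ((i : ℝ) + 1) := by positivity
    refine (mul_le_mul_of_nonneg_left (hkey i) (by positivity)).trans ?_
    apply le_of_eq
    rw [pow_succ (3 / 4 : ℝ) i]
    field_simp

end Pool.Agent.H7.ILV
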